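import Pool.Agent.Run7.h350.MC.JS2a

/-! Piece JS2 of helper568's project MC (MP_a29257_gt): the leaf of a metric depends smoothly on
the metric, with uniform bounds. -/

set_option linter.unusedSectionVars false

namespace Run7.h350.MC

open Real Matrix Run7.h568.MC Run7.h568.MC.Pattern Run7.h778.MC

universe u

variable {V : Type u} [Fintype V]

/-- `A` as a permutation -/
noncomputable def eA (P : Pattern V) : Equiv.Perm V := Equiv.ofBijective P.A P.A_bij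

theorem exists_k (P : Pattern V) : ∃ k, eA P ^ (k + 1) = 1 := by
  classical
  refine ⟨orderOf (eA P) - 1, ?_⟩
  have : 0 < orderOf (eA P) := orderOf_pos (eA P)
  rw [Nat.sub_add_cancel this]
  exact pow_orderOf_eq_one (eA P)

variable {P : Pattern V}

/-- the end of the lift as a function of the transports and of the twist -/
noncomputable def fa (k : ℕ) (G : V → Matrix (Fin 2) (Fin 2) ℝ) (τ : V → ℝ) (p : V) : ℝ :=
  fixp (Cm (eA P) (fun p => G p 0 0) (fun p => G p 0 1) (fun p => -(G p 1 0))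
    (fun p => -(G p 1 1)) τ k p)

theorem leafA_eq (m : HypMetric P) {k : ℕ} (hk : eA P ^ (k + 1) = 1) (τ b : V → ℝ)
    (h : IsLeafA m τ b) (p : V) : b p = fa (P := P) k m.G τ p := by
  have h0 : ∀ p, 0 < (m.G p) 0 0 := fun p => (m.beta_left p).1
  have h1 : ∀ p, 0 < (m.G p) 0 1 := fun p => (m.beta_left p).2.1
  have h2 : ∀ p, 0 < -(m.G p) 1 0 := fun p => neg_pos.2 (m.beta_left p).2.2.1
  have h3 : ∀ p, 0 < -(m.G p) 1 1 := fun p => neg_pos.2 (m.beta_left p).2.2.2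
  have hM := fun p => Mt_pos (eA P) h0 h1 h2 h3 τ p
  have hbe : ∀ p, b p = act (Mt (eA P) (fun p => m.G p 0 0) (fun p => m.G p 0 1)
      (fun p => -(m.G p 1 0)) (fun p => -(m.G p 1 1)) τ p) (b (eA P p)) := by
    intro p
    rw [act_Mt]
    have := h.2 p
    unfold Mob at this
    rw [sub_eq_add_neg] at this
    exact this
  have key : ∀ n : ℕ, ∀ p, b p = act (Cm (eA P) (fun p => m.G p 0 0) (fun p => m.G p 0 1)
      (fun p => -(m.G p 1 0)) (fun p => -(m.G p 1 1)) τ n p) (b ((eA P ^ (n + 1)) p)) := by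
    intro n
    induction n with
    | zero => intro p; simpa [Cm] using hbe p
    | succ n ih =>
      intro p
      have e : (eA P ^ (n + 1 + 1)) p = (eA P ^ (n + 1)) (eA P p) := by
        rw [pow_succ, Equiv.Perm.mul_apply]
      rw [e]
      simp only [Cm]
      rw [act_mul (hM p) (Cm_pos (eA P) h0 h1 h2 h3 τ n _) (h.1 _), ← ih (eA P p)]
      exact hbe p
  have e := key k p
  rw [hk, Equiv.Perm.one_apply] at e
  exact eq_fixp (Cm_pos (eA P) h0 h1 h2 h3 τ k p) (h.1 p) e.symm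

variable {X : Type u} [NormedAddCommGroup X] [NormedSpace ℝ X]

theorem CM_Mt {g00 g01 h10 h11 τ : X → V → ℝ} {e0 : X}
    (h0 : ∀ p, ContDiffAt ℝ 2 (fun e => g00 e p) e0)
    (h1 : ∀ p, ContDiffAt ℝ 2 (fun e => g01 e p) e0)
    (h2 : ∀ p, ContDiffAt ℝ 2 (fun e => h10 e p) e0)
    (h3 : ∀ p, ContDiffAt ℝ 2 (fun e => h11 e p) e0)
    (h4 : ∀ p, ContDiffAt ℝ 2 (fun e => τ e p) e0) (p : V) :
    CM (fun e => Mt (eA P) (g00 e) (g01 e) (h10 e) (h11 e) (τ e) p) e0 := by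
  have h : ContDiffAt ℝ 2 (fun e => Real.exp (-(τ e (eA P p)))) e0 := (h4 _).neg.exp
  intro i j
  fin_cases i <;> fin_cases j
  · simpa [Mt] using (h1 p).mul h
  · simpa [Mt] using h0 p
  · simpa [Mt] using (h3 p).mul h
  · simpa [Mt] using h2 p

theorem CM_Cm {g00 g01 h10 h11 τ : X → V → ℝ} {e0 : X}
    (h0 : ∀ p, ContDiffAt ℝ 2 (fun e => g00 e p) e0)
    (h1 : ∀ p, ContDiffAt ℝ 2 (fun e => g01 e p) e0)
    (h2 : ∀ p, ContDiffAt ℝ 2 (fun e => h10 e p) e0)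
    (h3 : ∀ p, ContDiffAt ℝ 2 (fun e => h11 e p) e0)
    (h4 : ∀ p, ContDiffAt ℝ 2 (fun e => τ e p) e0) (k : ℕ) : ∀ (p : V),
    CM (fun e => Cm (eA P) (g00 e) (g01 e) (h10 e) (h11 e) (τ e) k p) e0 := by
  induction k with
  | zero => exact fun p => CM_Mt h0 h1 h2 h3 h4 p
  | succ k ih => exact fun p => (CM_Mt h0 h1 h2 h3 h4 p).mul (ih _)

theorem c_fixp {M : X → Matrix (Fin 2) (Fin 2) ℝ} {e0 : X} (hM : CM M e0) (hP : Pos (M e0)) :
    ContDiffAt ℝ 2 (fun e => fixp (M e)) e0 := by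
  unfold fixp
  refine ContDiffAt.div ?_ ?_ ?_
  · refine ((hM 0 0).sub (hM 1 1)).add (ContDiffAt.sqrt ?_ (disc_pos hP).ne')
    exact (((hM 0 0).sub (hM 1 1)).pow 2).add (contDiffAt_const.mul ((hM 1 0).mul (hM 0 1)))
  · exact contDiffAt_const.mul (hM 1 0)
  · have := hP 1 0
    positivity

theorem c_fa {G : X → V → Matrix (Fin 2) (Fin 2) ℝ} {τ : X → V → ℝ} {e0 : X}
    (hG : ∀ p, CM (fun e => G e p) e0) (h4 : ∀ p, ContDiffAt ℝ 2 (fun e => τ e p) e0)
    (m : HypMetric P) (hG0 : G e0 = m.G) (k : ℕ) (p : V) :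
    ContDiffAt ℝ 2 (fun e => fa (P := P) k (G e) (τ e) p) e0 := by
  unfold fa
  refine c_fixp (CM_Cm (fun p => hG p 0 0) (fun p => hG p 0 1) (fun p => (hG p 1 0).neg)
    (fun p => (hG p 1 1).neg) h4 k p) ?_
  rw [hG0]
  exact Cm_pos (eA P) (fun p => (m.beta_left p).1) (fun p => (m.beta_left p).2.1)
    (fun p => neg_pos.2 (m.beta_left p).2.2.1) (fun p => neg_pos.2 (m.beta_left p).2.2.2) _ k p

/-! ### the twisted metric as a function of the metric and of the twist -/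

/-- the factor `el` -/
noncomputable def fel (G : V → Matrix (Fin 2) (Fin 2) ℝ) (τ a : V → ℝ) (p : V) : ℝ :=
  (Real.exp (-(τ (P.A p))) * a (P.A p)) /
      (((G p) 0 1 * (Real.exp (-(τ (P.A p))) * a (P.A p)) + (G p) 0 0) *
        (-((G p) 1 1) * (Real.exp (-(τ (P.A p))) * a (P.A p)) - (G p) 1 0))

section

variable (P) (fX fY fΘ : P.W → V → ℝ) (k : ℕ)

noncomputable def fG (v : P.W) (p : V) : Matrix (Fin 2) (Fin 2) ℝ := cross P (fX v) (fΘ v) p

noncomputable def fA (e : P.W × Inv P) (p : V) : ℝ := fa (P := P) k (fG P fX fΘ e.1) e.2 p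

noncomputable def fT (e : P.W × Inv P) (p : V) : ℝ :=
  Real.exp ((e.2 : V → ℝ) p) / (fA P fX fΘ k e p * fA P fX fΘ k e (P.rho p))

noncomputable def fE (e : P.W × Inv P) (p : V) : ℝ :=
  Real.exp ((e.2 : V → ℝ) p - fY e.1 (P.rho p)) / (fA P fX fΘ k e p * fA P fX fΘ k e (P.kap p))

noncomputable def fL (e : P.W × Inv P) (p : V) : ℝ :=
  fel (P := P) (fG P fX fΘ e.1) e.2 (fA P fX fΘ k e) p

noncomputable def fF (e : P.W × Inv P) : P.W :=
  rlin P (fT P fX fΘ k e) (fE P fX fY fΘ k e) (fL P fX fΘ k e)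

noncomputable def fK (v : P.W) : ℝ :=
  (1 + ∑ p, (((fG P fX fΘ v p) 0 1 / (-((fG P fX fΘ v p) 1 1)) +
      (fG P fX fΘ v p) 0 0 / (-((fG P fX fΘ v p) 1 0))) +
    ((-((fG P fX fΘ v p) 1 1)) / (fG P fX fΘ v p) 0 1 +
      (-((fG P fX fΘ v p) 1 0)) / (fG P fX fΘ v p) 0 0)))

noncomputable def fYY (v : P.W) : ℝ := 1 + ∑ p, Real.exp (fY v p)

end

section main

variable {fX fY fΘ : P.W → V → ℝ} {k : ℕ} (hk : eA P ^ (k + 1) = 1) (hA : S_GA P) (hB : S_GB P)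
  (m : HypMetric P) (hX : fX m.lin = m.x) (hY : fY m.lin = m.y) (hΘ : fΘ m.lin = m.θ)

include hX hΘ in
theorem fG_eq : fG P fX fΘ m.lin = m.G := by
  funext p
  unfold fG
  rw [hX, hΘ]
  rfl

include hk hX hΘ in
theorem fA_eq {τ : Inv P} {a : V → ℝ} (ha : IsLeafA m τ a) : fA P fX fΘ k (m.lin, τ) = a := by
  funext p
  unfold fA
  dsimp only
  rw [fG_eq m hX hΘ, leafA_eq m hk τ a ha]

include hk hX hΘ in
theorem fT_eq {τ : Inv P} {a : V → ℝ} {m' : HypMetric P} (h : LeafRel m τ a m') :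
    fT P fX fΘ k (m.lin, τ) = m'.TT := by
  funext p
  unfold fT
  rw [fA_eq hk m hX hΘ h.isA, h.T_eq p]

include hk hX hY hΘ in
theorem fE_eq {τ : Inv P} {a : V → ℝ} {m' : HypMetric P} (h : LeafRel m τ a m') :
    fE P fX fY fΘ k (m.lin, τ) = m'.EE := by
  funext p
  unfold fE
  dsimp only
  rw [fA_eq hk m hX hΘ h.isA, h.E_eq p, hY]

include hk hX hΘ in
theorem fL_eq {τ : Inv P} {a : V → ℝ} {m' : HypMetric P} (h : LeafRel m τ a m') (p : V) :
    m'.DD p / (m'.mu p * m'.DD (P.A p)) = fL P fX fΘ k (m.lin, τ) p := by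
  unfold fL
  dsimp only
  rw [fA_eq hk m hX hΘ h.isA, h.el_eq p, fG_eq m hX hΘ]
  rfl

include hA hk hX hY hΘ in
theorem fF_eq {τ : Inv P} {a : V → ℝ} {m' : HypMetric P} (h : LeafRel m τ a m') :
    fF P fX fY fΘ k (m.lin, τ) = m'.lin := by
  unfold fF
  rw [fT_eq hk m hX hΘ h, fE_eq hk m hX hY hΘ h]
  exact rlin_eq hA m' _ fun p => fL_eq hk m hX hΘ h p

variable (cX : ∀ p, ContDiffAt ℝ 2 (fun v => fX v p) m.lin)
  (cY : ∀ p, ContDiffAt ℝ 2 (fun v => fY v p) m.lin)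
  (cΘ : ∀ p, ContDiffAt ℝ 2 (fun v => fΘ v p) m.lin)

include cX cΘ in
theorem c_G1 (p : V) : CM (fun v : P.W => fG P fX fΘ v p) m.lin := by
  unfold fG
  exact CM_cross (P := P) (x := fX) (θ := fΘ) cX cΘ p

include cX cΘ in
theorem c_G (τ : Inv P) (p : V) :
    CM (fun e : P.W × Inv P => fG P fX fΘ e.1 p) ((m.lin, τ) : P.W × Inv P) := by
  intro i j
  have h := c_G1 m cX cΘ p i j
  exact ContDiffAt.comp (x := ((m.lin, τ) : P.W × Inv P)) (g := fun v => fG P fX fΘ v p i j)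
    (f := Prod.fst) h contDiffAt_fst

theorem c_tau (e0 : P.W × Inv P) (p : V) :
    ContDiffAt ℝ 2 (fun e : P.W × Inv P => (e.2 : V → ℝ) p) e0 := by
  have h1 : ContDiff ℝ 2 (fun e : P.W × Inv P => (e.2 : V → ℝ)) :=
    (Inv P).subtypeL.contDiff.comp contDiff_snd
  exact ((contDiff_apply ℝ ℝ p).comp h1).contDiffAt

include hX hΘ cX cΘ in
theorem c_fA (τ : Inv P) (p : V) :
    ContDiffAt ℝ 2 (fun e : P.W × Inv P => fA P fX fΘ k e p) (m.lin, τ) := by
  unfold fA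
  exact c_fa (P := P) (G := fun e : P.W × Inv P => fG P fX fΘ e.1)
    (τ := fun e : P.W × Inv P => (e.2 : V → ℝ)) (fun p => c_G m cX cΘ τ p)
    (fun p => c_tau _ p) m (fG_eq m hX hΘ) k p

include hA hB hk hX hY hΘ cX cY cΘ in
theorem c_fF {τ : Inv P} {a : V → ℝ} {m' : HypMetric P} (h : LeafRel m τ a m') :
    ContDiffAt ℝ 2 (fF P fX fY fΘ k) (m.lin, τ) := by
  have hA0 : fA P fX fΘ k (m.lin, τ) = a := fA_eq hk m hX hΘ h.isA
  have hpos : ∀ p, fA P fX fΘ k (m.lin, τ) p ≠ 0 := fun p => by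
    rw [hA0]; exact (h.isA.1 p).ne'
  have cA := fun p => c_fA (k := k) m hX hΘ cX cΘ τ p
  have hT : ∀ p, ContDiffAt ℝ 2 (fun e : P.W × Inv P => fT P fX fΘ k e p) (m.lin, τ) := by
    intro p
    unfold fT
    exact ((c_tau _ p).exp).div ((cA p).mul (cA _)) (mul_ne_zero (hpos p) (hpos _))
  have cY' : ∀ p, ContDiffAt ℝ 2 (fun e : P.W × Inv P => fY e.1 p)
      ((m.lin, τ) : P.W × Inv P) := fun p =>
    ContDiffAt.comp (x := ((m.lin, τ) : P.W × Inv P)) (g := fun v => fY v p) (f := Prod.fst)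
      (cY p) contDiffAt_fst
  have hE : ∀ p, ContDiffAt ℝ 2 (fun e : P.W × Inv P => fE P fX fY fΘ k e p) (m.lin, τ) := by
    intro p
    unfold fE
    exact (((c_tau _ p).sub (cY' _)).exp).div ((cA p).mul (cA _))
      (mul_ne_zero (hpos p) (hpos _))
  have hL : ∀ p, ContDiffAt ℝ 2 (fun e : P.W × Inv P => fL P fX fΘ k e p) (m.lin, τ) := by
    intro p
    unfold fL fel
    have hw : ContDiffAt ℝ 2 (fun e : P.W × Inv P =>
        Real.exp (-((e.2 : V → ℝ) (P.A p))) * fA P fX fΘ k e (P.A p)) (m.lin, τ) :=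
      ((c_tau _ (P.A p)).neg.exp).mul (cA (P.A p))
    have cG := c_G m cX cΘ τ p
    refine hw.div ((((cG 0 1).mul hw).add (cG 0 0)).mul
      (((cG 1 1).neg.mul hw).sub (cG 1 0))) ?_
    dsimp only
    rw [hA0, fG_eq m hX hΘ]
    exact (Run7.h713.MC.SMOOTH.el_den m _ _ h.isA.1 p).ne'
  exact c_lin hA hB m' hT hE hL (fT_eq hk m hX hΘ h) (fE_eq hk m hX hY hΘ h)
    (fun p => fL_eq hk m hX hΘ h p)

include hX hΘ in
theorem fK_term_pos (p : V) :
    0 < (fG P fX fΘ m.lin p) 0 1 ∧ 0 < (fG P fX fΘ m.lin p) 0 0 ∧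
    0 < -(fG P fX fΘ m.lin p) 1 1 ∧ 0 < -(fG P fX fΘ m.lin p) 1 0 := by
  rw [fG_eq m hX hΘ]
  obtain ⟨h1, h2, h3, h4⟩ := m.beta_left p
  exact ⟨h2, h1, neg_pos.2 h4, neg_pos.2 h3⟩

include hX hΘ in
theorem fK_bound : 1 ≤ fK P fX fΘ m.lin ∧ ∀ (τ a : V → ℝ), IsLeafA m τ a →
    ∀ p, a p ≤ fK P fX fΘ m.lin ∧ (a p)⁻¹ ≤ fK P fX fΘ m.lin := by
  have hs := fK_term_pos m hX hΘ
  set f : V → ℝ := fun p =>
    (((fG P fX fΘ m.lin p) 0 1 / (-((fG P fX fΘ m.lin p) 1 1)) +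
      (fG P fX fΘ m.lin p) 0 0 / (-((fG P fX fΘ m.lin p) 1 0))) +
    ((-((fG P fX fΘ m.lin p) 1 1)) / (fG P fX fΘ m.lin p) 0 1 +
      (-((fG P fX fΘ m.lin p) 1 0)) / (fG P fX fΘ m.lin p) 0 0)) with hfdef
  have hK : fK P fX fΘ m.lin = 1 + ∑ p, f p := rfl
  have hf : ∀ p, 0 ≤ f p := by
    intro p
    obtain ⟨h1, h2, h3, h4⟩ := hs p
    simp only [hfdef]
    positivity
  have hsum : 0 ≤ ∑ p, f p := Finset.sum_nonneg fun p _ => hf p
  refine ⟨by rw [hK]; linarith, ?_⟩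
  intro τ a ha p
  have hle : f p ≤ ∑ p, f p := Finset.single_le_sum (fun q _ => hf q) (Finset.mem_univ p)
  obtain ⟨h1, h2, h3, h4⟩ := hs p
  have hw : 0 < Real.exp (-(τ (P.A p))) * a (P.A p) := mul_pos (Real.exp_pos _) (ha.1 _)
  have h5 := Run7.h713.MC.SMOOTH.mob_bound h1 h2 h3 h4 hw
  have h6 : a p = ((fG P fX fΘ m.lin p) 0 1 * (Real.exp (-(τ (P.A p))) * a (P.A p)) +
      (fG P fX fΘ m.lin p) 0 0) / (-((fG P fX fΘ m.lin p) 1 1) *
        (Real.exp (-(τ (P.A p))) * a (P.A p)) + -((fG P fX fΘ m.lin p) 1 0)) := by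
    have := ha.2 p
    rw [fG_eq m hX hΘ]
    unfold Mob at this
    rw [← sub_eq_add_neg]
    exact this
  rw [← h6] at h5
  have e1 : 0 < (fG P fX fΘ m.lin p) 0 1 / (-((fG P fX fΘ m.lin p) 1 1)) +
      (fG P fX fΘ m.lin p) 0 0 / (-((fG P fX fΘ m.lin p) 1 0)) := by positivity
  have e2 : 0 < (-((fG P fX fΘ m.lin p) 1 1)) / (fG P fX fΘ m.lin p) 0 1 +
      (-((fG P fX fΘ m.lin p) 1 0)) / (fG P fX fΘ m.lin p) 0 0 := by positivity
  have e3 : f p = (((fG P fX fΘ m.lin p) 0 1 / (-((fG P fX fΘ m.lin p) 1 1)) +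
      (fG P fX fΘ m.lin p) 0 0 / (-((fG P fX fΘ m.lin p) 1 0))) +
    ((-((fG P fX fΘ m.lin p) 1 1)) / (fG P fX fΘ m.lin p) 0 1 +
      (-((fG P fX fΘ m.lin p) 1 0)) / (fG P fX fΘ m.lin p) 0 0)) := rfl
  rw [hK]
  constructor
  · linarith [h5.1]
  · linarith [h5.2]

include hX hΘ cX cΘ in
theorem c_fK : ContinuousAt (fK P fX fΘ) m.lin := by
  have cG := fun p i j => (c_G1 m cX cΘ p i j).continuousAt
  unfold fK
  refine continuousAt_const.add ?_
  refine tendsto_finsetSum _ fun p _ => ?_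
  obtain ⟨h1, h2, h3, h4⟩ := fK_term_pos m hX hΘ p
  exact (((cG p 0 1).div (cG p 1 1).neg h3.ne').add ((cG p 0 0).div (cG p 1 0).neg h4.ne')).add
    (((cG p 1 1).neg.div (cG p 0 1) h1.ne').add ((cG p 1 0).neg.div (cG p 0 0) h2.ne'))

end main

theorem js2 (hAll : Asm.All P) (hdom : S_DOM P) (hjs : S_JS1 P) : S_JS2 P := by
  obtain ⟨fX, fY, fΘ, cX, cY, cΘ, hv⟩ := hjs
  obtain ⟨k, hk⟩ := exists_k P
  have hcd : ∀ {g : P.W → ℝ}, ContDiffOn ℝ 2 g (Dom P) → ∀ m : HypMetric P,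
      ContDiffAt ℝ 2 g m.lin := fun h m => h.contDiffAt (hdom.1.mem_nhds (hdom.2.1 m))
  have hpt : ∀ (m : HypMetric P) (τ : Inv P), ContDiffAt ℝ 2 (fF P fX fY fΘ k) (m.lin, τ) := by
    intro m τ
    obtain ⟨L⟩ := Asm.exists_leafData hAll m
    exact c_fF hk hAll.ga hAll.gb m (hv m).1 (hv m).2.1 (hv m).2.2 (fun p => hcd (cX p) m)
      (fun p => hcd (cY p) m) (fun p => hcd (cΘ p) m) (L.rel τ)
  refine ⟨{e | ContDiffAt ℝ 1 (fF P fX fY fΘ k) e}, fF P fX fY fΘ k,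
    fun v => fK P fX fΘ v * fK P fX fΘ v * fYY P fY v, ?_, ?_, ?_, ?_, ?_⟩
  · rw [isOpen_iff_mem_nhds]
    intro e he
    exact ContDiffAt.eventually he (by norm_num)
  · intro m τ
    have h : ContDiffAt ℝ 1 (fF P fX fY fΘ k) (m.lin, τ) :=
      ContDiffAt.of_le (hpt m τ) (by norm_num)
    exact h
  · intro e he
    exact ContDiffAt.contDiffWithinAt he
  · rintro v ⟨m, rfl⟩
    have h1 := c_fK m (hv m).1 (hv m).2.2 (fun p => hcd (cX p) m) (fun p => hcd (cΘ p) m)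
    have h2 : ContinuousAt (fYY P fY) m.lin := by
      unfold fYY
      refine continuousAt_const.add ?_
      refine tendsto_finsetSum _ fun p _ => ?_
      exact (hcd (cY p) m).continuousAt.rexp
    exact ((h1.mul h1).mul h2).continuousWithinAt
  · intro m m' τ a h
    obtain ⟨hX, hY, hΘ⟩ := hv m
    obtain ⟨hK, hb⟩ := fK_bound m hX hΘ
    have hK0 : 0 < fK P fX fΘ m.lin := by linarith
    have hY1 : 1 ≤ fYY P fY m.lin := by
      have : 0 ≤ ∑ p, Real.exp (fY m.lin p) := Finset.sum_nonneg fun p _ => (Real.exp_pos _).le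
      unfold fYY; linarith
    have hYY : ∀ p, Real.exp (m.y p) ≤ fYY P fY m.lin := by
      intro p
      have : Real.exp (fY m.lin p) ≤ ∑ p, Real.exp (fY m.lin p) :=
        Finset.single_le_sum (fun q _ => (Real.exp_pos (fY m.lin q)).le) (Finset.mem_univ p)
      rw [hY] at this
      unfold fYY
      rw [hY]
      linarith
    refine ⟨fF_eq hk hAll.ga m hX hY hΘ h, by positivity, fun p => ?_⟩
    have hpos := h.isA.1
    set K := fK P fX fΘ m.lin
    set Y := fYY P fY m.lin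
    constructor
    · rw [h.E_eq p, Real.exp_sub]
      have e1 : K * K * Y * (Real.exp ((τ : V → ℝ) p) / Real.exp (m.y (P.rho p)) /
          (a p * a (P.kap p))) =
          Real.exp ((τ : V → ℝ) p) * ((K / a p) * (K / a (P.kap p)) *
          (Y / Real.exp (m.y (P.rho p)))) := by
        have := (hpos p).ne'
        have := (hpos (P.kap p)).ne'
        field_simp
      rw [e1]
      have e2 : 1 ≤ K / a p := by
        rw [one_le_div (hpos p)]; exact (hb _ _ h.isA p).1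
      have e3 : 1 ≤ K / a (P.kap p) := by
        rw [one_le_div (hpos _)]; exact (hb _ _ h.isA _).1
      have e4 : 1 ≤ Y / Real.exp (m.y (P.rho p)) := by
        rw [one_le_div (Real.exp_pos _)]; exact hYY _
      have e5 : 1 ≤ (K / a p) * (K / a (P.kap p)) * (Y / Real.exp (m.y (P.rho p))) := by
        have h1 := one_le_mul_of_one_le_of_one_le e2 e3
        exact one_le_mul_of_one_le_of_one_le h1 e4
      exact le_mul_of_one_le_right (Real.exp_pos _).le e5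
    · rw [h.T_eq p]
      have e1 : Real.exp ((τ : V → ℝ) p) / (a p * a (P.rho p)) =
          ((a p)⁻¹ * (a (P.rho p))⁻¹) * Real.exp ((τ : V → ℝ) p) := by
        have := (hpos p).ne'
        have := (hpos (P.rho p)).ne'
        field_simp
      rw [e1]
      refine mul_le_mul_of_nonneg_right ?_ (Real.exp_pos _).le
      have e2 := (hb _ _ h.isA p).2
      have e3 := (hb _ _ h.isA (P.rho p)).2
      have e4 : (a p)⁻¹ * (a (P.rho p))⁻¹ ≤ K * K :=
        mul_le_mul e2 e3 (inv_pos.2 (hpos _)).le hK0.le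
      have e5 : K * K ≤ K * K * Y := le_mul_of_one_le_right (by positivity) hY1
      linarith

end Run7.h350.MC

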