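import Pool.Agent.Run7.h568.MC.Iface2
import Pool.Agent.Run7.h713.MC.SMOOTH
import Pool.Agent.Run7.h778.MC.MOB

/-! Piece JS2 of helper568's project MC (MP_a29257_gt), first part: pointwise smoothness of the
gauge quantities. -/

set_option linter.unusedSectionVars false

namespace Run7.h350.MC

open Real Matrix Run7.h568.MC Run7.h568.MC.Pattern

universe u

variable {V : Type u} [Fintype V] {P : Pattern V}
variable {X : Type u} [NormedAddCommGroup X] [NormedSpace ℝ X]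

/-! ### matrices with smooth entries -/

def CM (f : X → Matrix (Fin 2) (Fin 2) ℝ) (e0 : X) : Prop :=
  ∀ i j, ContDiffAt ℝ 2 (fun e => f e i j) e0

theorem CM.mul {f g : X → Matrix (Fin 2) (Fin 2) ℝ} {e0 : X} (hf : CM f e0) (hg : CM g e0) :
    CM (fun e => f e * g e) e0 := by
  intro i j
  simp only [Matrix.mul_apply, Fin.sum_univ_two]
  exact ((hf i 0).mul (hg 0 j)).add ((hf i 1).mul (hg 1 j))

theorem CM_R {f : X → ℝ} {e0 : X} (hf : ContDiffAt ℝ 2 f e0) :
    CM (fun e => Run7.h568.R (f e)) e0 := by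
  have h2 : ContDiffAt ℝ 2 (fun e => f e / 2) e0 := hf.div_const 2
  intro i j
  fin_cases i <;> fin_cases j
  · simpa [Run7.h568.R] using h2.cos
  · simpa [Run7.h568.R] using h2.sin
  · simpa [Run7.h568.R] using h2.sin.neg
  · simpa [Run7.h568.R] using h2.cos

theorem CM_T {f : X → ℝ} {e0 : X} (hf : ContDiffAt ℝ 2 f e0) :
    CM (fun e => Run7.h568.T (f e)) e0 := by
  have h2 : ContDiffAt ℝ 2 (fun e => f e / 2) e0 := hf.div_const 2
  intro i j
  fin_cases i <;> fin_cases j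
  · simpa [Run7.h568.T] using h2.exp
  · simpa [Run7.h568.T] using contDiffAt_const
  · simpa [Run7.h568.T] using contDiffAt_const
  · simpa [Run7.h568.T] using h2.neg.exp

theorem CM_cross {x θ : X → V → ℝ} {e0 : X} (hx : ∀ p, ContDiffAt ℝ 2 (fun e => x e p) e0)
    (hθ : ∀ p, ContDiffAt ℝ 2 (fun e => θ e p) e0) (p : V) :
    CM (fun e => cross P (x e) (θ e) p) e0 := by
  unfold cross
  exact ((CM_R (hθ p)).mul (CM_T (hx p))).mul (CM_R (contDiffAt_const.sub (hθ (P.iota p))))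

/-! ### raw gauge quantities -/

section raw

variable (P) (T E L : V → ℝ)

noncomputable def rSS (p : V) : ℝ := (1 + E p) / (T p - E p)
noncomputable def rRR (p : V) : ℝ := T p * (1 + E p) / (T p - E p)
noncomputable def rDD (p : V) : ℝ := rRR T E p + rSS T E p
noncomputable def rLam (p : V) : ℝ := (rRR T E p - 1) * (rSS T E (P.kap p) + 1)
noncomputable def rThe (p : V) : ℝ := rRR T E p * rSS T E (P.rho p)
noncomputable def rmu (p : V) : ℝ := rDD T E p / (L p * rDD T E (P.A p))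
noncomputable def rmuV (p : V) : ℝ :=
  (rmu P T E L (P.tau p) - 1) / (rmu P T E L (P.tau p) - 1 - rLam P T E (P.A p))
noncomputable def rmuZ : P.Z → ℝ
  | Sum.inl p => if P.Diag p then rmu P T E L p / rmuV P T E L p else rmu P T E L p
  | Sum.inr p => rmuV P T E L p
noncomputable def rLamZ : P.Z → ℝ
  | Sum.inl p => rLam P T E p
  | Sum.inr p => (1 - 1 / rmuZ P T E L (Sum.inl (p : V))) *
      (rmuZ P T E L (Pattern.Zk (Sum.inr p)) - 1)
noncomputable def rU : P.Z → ℝ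
  | Sum.inl p => -Real.log (rmuZ P T E L (Sum.inl (P.top p)) - 1)
  | Sum.inr p => -Real.log (rmuZ P T E L (Sum.inr p) - 1)
noncomputable def rlZ (z : P.Z) : ℝ :=
  Real.log (rLamZ P T E L z) + rU P T E L z + rU P T E L (Pattern.Zk z)
noncomputable def rw' (p : V) : ℝ :=
  Real.log (rThe P T E p) + rU P T E L (Sum.inl p) + rU P T E L (Sum.inl (P.rho p))
noncomputable def rlin : P.W := (rlZ P T E L, rw' P T E L)

end raw

/-- the gauge quantities of a metric -/
theorem rmu_eq (hA : S_GA P) (m : HypMetric P) (L : V → ℝ)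
    (hL : ∀ p, m.DD p / (m.mu p * m.DD (P.A p)) = L p) (p : V) :
    rmu P m.TT m.EE L p = m.mu p := by
  have h2 := Run7.h713.MC.SMOOTH.DD_pos hA m (P.A p)
  have h3 := Run7.h713.MC.SMOOTH.mu_pos hA m p
  have h5 := Run7.h713.MC.SMOOTH.DD_pos hA m p
  change m.DD p / (L p * m.DD (P.A p)) = m.mu p
  rw [← hL p]
  field_simp

theorem rlin_eq (hA : S_GA P) (m : HypMetric P) (L : V → ℝ)
    (hL : ∀ p, m.DD p / (m.mu p * m.DD (P.A p)) = L p) : rlin P m.TT m.EE L = m.lin := by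
  have h1 : rmu P m.TT m.EE L = m.mu := funext (rmu_eq hA m L hL)
  have h2 : rmuV P m.TT m.EE L = m.muV := by
    funext p
    unfold rmuV HypMetric.muV
    rw [h1]
    rfl
  have h3 : rmuZ P m.TT m.EE L = m.muZ := by
    funext z
    rcases z with p | p
    · unfold rmuZ HypMetric.muZ; dsimp only
      rw [h1, h2]
    · unfold rmuZ HypMetric.muZ; dsimp only
      rw [h2]
  have h4 : rLamZ P m.TT m.EE L = m.LamZ := by
    funext z
    rcases z with p | p
    · rfl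
    · unfold rLamZ HypMetric.LamZ; dsimp only
      rw [h3]
  have h5 : rU P m.TT m.EE L = m.U := by
    funext z
    rcases z with p | p
    · unfold rU HypMetric.U; dsimp only
      rw [h3]
    · unfold rU HypMetric.U; dsimp only
      rw [h3]
  unfold rlin HypMetric.lin
  refine Prod.ext ?_ ?_
  · funext z
    change rlZ P m.TT m.EE L z = m.lZ z
    unfold rlZ HypMetric.lZ
    rw [h4, h5]
  · funext p
    change rw' P m.TT m.EE L p = m.w p
    unfold rw' HypMetric.w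
    rw [h5]
    rfl

section smooth

variable (hA : S_GA P) (hB : S_GB P) (m : HypMetric P) {T E L : X → V → ℝ} {e0 : X}
  (hT : ∀ p, ContDiffAt ℝ 2 (fun e => T e p) e0) (hE : ∀ p, ContDiffAt ℝ 2 (fun e => E e p) e0)
  (hL : ∀ p, ContDiffAt ℝ 2 (fun e => L e p) e0)
  (hT0 : T e0 = m.TT) (hE0 : E e0 = m.EE)
  (hL0 : ∀ p, m.DD p / (m.mu p * m.DD (P.A p)) = L e0 p)

include hA hT hE hT0 hE0

theorem c_SS (p : V) : ContDiffAt ℝ 2 (fun e => rSS (T e) (E e) p) e0 := by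
  refine (contDiffAt_const.add (hE p)).div ((hT p).sub (hE p)) ?_
  rw [hT0, hE0]
  exact (Run7.h713.MC.SMOOTH.TE_pos hA m p).ne'

theorem c_RR (p : V) : ContDiffAt ℝ 2 (fun e => rRR (T e) (E e) p) e0 := by
  refine ((hT p).mul (contDiffAt_const.add (hE p))).div ((hT p).sub (hE p)) ?_
  rw [hT0, hE0]
  exact (Run7.h713.MC.SMOOTH.TE_pos hA m p).ne'

theorem c_DD (p : V) : ContDiffAt ℝ 2 (fun e => rDD (T e) (E e) p) e0 :=
  (c_RR hA m hT hE hT0 hE0 p).add (c_SS hA m hT hE hT0 hE0 p)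

theorem c_Lam (p : V) : ContDiffAt ℝ 2 (fun e => rLam P (T e) (E e) p) e0 :=
  ((c_RR hA m hT hE hT0 hE0 p).sub contDiffAt_const).mul
    ((c_SS hA m hT hE hT0 hE0 (P.kap p)).add contDiffAt_const)

theorem c_The (p : V) : ContDiffAt ℝ 2 (fun e => rThe P (T e) (E e) p) e0 :=
  (c_RR hA m hT hE hT0 hE0 p).mul (c_SS hA m hT hE hT0 hE0 (P.rho p))

include hL hL0

theorem c_mu (p : V) : ContDiffAt ℝ 2 (fun e => rmu P (T e) (E e) (L e) p) e0 := by
  refine (c_DD hA m hT hE hT0 hE0 p).div ((hL p).mul (c_DD hA m hT hE hT0 hE0 (P.A p))) ?_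
  rw [hT0, hE0, ← hL0 p]
  have h2 := Run7.h713.MC.SMOOTH.DD_pos hA m (P.A p)
  have h3 := Run7.h713.MC.SMOOTH.mu_pos hA m p
  have h5 := Run7.h713.MC.SMOOTH.DD_pos hA m p
  change m.DD p / (m.mu p * m.DD (P.A p)) * m.DD (P.A p) ≠ 0
  positivity

theorem v_mu (p : V) : rmu P (T e0) (E e0) (L e0) p = m.mu p := by
  rw [hT0, hE0]
  exact rmu_eq hA m (L e0) hL0 p

theorem v_muV (p : V) : rmuV P (T e0) (E e0) (L e0) p = m.muV p := by
  unfold rmuV HypMetric.muV
  rw [v_mu hA m hT hE hL hT0 hE0 hL0, hT0, hE0]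
  rfl

include hB

theorem c_muV {p : V} (h : P.Diag p) :
    ContDiffAt ℝ 2 (fun e => rmuV P (T e) (E e) (L e) p) e0 := by
  refine ((c_mu hA m hT hE hL hT0 hE0 hL0 (P.tau p)).sub contDiffAt_const).div
    (((c_mu hA m hT hE hL hT0 hE0 hL0 (P.tau p)).sub contDiffAt_const).sub
      (c_Lam hA m hT hE hT0 hE0 (P.A p))) ?_
  rw [v_mu hA m hT hE hL hT0 hE0 hL0, hT0, hE0]
  exact Run7.h713.MC.SMOOTH.muV_den hA hB m h

theorem v_muZ (z : P.Z) : rmuZ P (T e0) (E e0) (L e0) z = m.muZ z := by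
  rcases z with p | p
  · unfold rmuZ HypMetric.muZ; dsimp only
    rw [v_mu hA m hT hE hL hT0 hE0 hL0, v_muV hA m hT hE hL hT0 hE0 hL0]
  · unfold rmuZ HypMetric.muZ; dsimp only
    rw [v_muV hA m hT hE hL hT0 hE0 hL0]

theorem c_muZ (z : P.Z) : ContDiffAt ℝ 2 (fun e => rmuZ P (T e) (E e) (L e) z) e0 := by
  rcases z with p | ⟨p, h⟩
  · change ContDiffAt ℝ 2 (fun e => if P.Diag p then
      rmu P (T e) (E e) (L e) p / rmuV P (T e) (E e) (L e) p else rmu P (T e) (E e) (L e) p) e0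
    by_cases h : P.Diag p
    · simp only [h, if_true]
      refine (c_mu hA m hT hE hL hT0 hE0 hL0 p).div
        (c_muV hA hB m hT hE hL hT0 hE0 hL0 h) ?_
      rw [v_muV hA m hT hE hL hT0 hE0 hL0]
      exact (lt_trans one_pos (Run7.h713.MC.SMOOTH.muV_gt hA hB m h)).ne'
    · simp only [h, if_false]
      exact c_mu hA m hT hE hL hT0 hE0 hL0 p
  · exact c_muV hA hB m hT hE hL hT0 hE0 hL0 h

theorem c_LamZ (z : P.Z) : ContDiffAt ℝ 2 (fun e => rLamZ P (T e) (E e) (L e) z) e0 := by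
  rcases z with p | p
  · exact c_Lam hA m hT hE hT0 hE0 p
  · unfold rLamZ
    refine (contDiffAt_const.sub (contDiffAt_const.div
      (c_muZ hA hB m hT hE hL hT0 hE0 hL0 _) ?_)).mul
      ((c_muZ hA hB m hT hE hL hT0 hE0 hL0 _).sub contDiffAt_const)
    rw [v_muZ hA hB m hT hE hL hT0 hE0 hL0]
    exact (Run7.h713.MC.SMOOTH.muZ_pos hA hB m _).ne'

theorem v_LamZ (z : P.Z) : rLamZ P (T e0) (E e0) (L e0) z = m.LamZ z := by
  rcases z with p | p
  · unfold rLamZ
    rw [hT0, hE0]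
    rfl
  · unfold rLamZ HypMetric.LamZ; dsimp only
    rw [v_muZ hA hB m hT hE hL hT0 hE0 hL0, v_muZ hA hB m hT hE hL hT0 hE0 hL0]

theorem c_U (z : P.Z) : ContDiffAt ℝ 2 (fun e => rU P (T e) (E e) (L e) z) e0 := by
  rcases z with p | p
  · unfold rU
    refine (((c_muZ hA hB m hT hE hL hT0 hE0 hL0 _).sub contDiffAt_const).log ?_).neg
    rw [v_muZ hA hB m hT hE hL hT0 hE0 hL0]
    have := (hB m (hA _)).muZ_gt (Sum.inl (P.top p)) (P.not_quad_top p)
    exact (sub_pos.2 this).ne'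
  · unfold rU
    refine (((c_muZ hA hB m hT hE hL hT0 hE0 hL0 _).sub contDiffAt_const).log ?_).neg
    rw [v_muZ hA hB m hT hE hL hT0 hE0 hL0]
    have := (hB m (hA _)).muZ_gt (Sum.inr p) trivial
    exact (sub_pos.2 this).ne'

theorem c_lin : ContDiffAt ℝ 2 (fun e => rlin P (T e) (E e) (L e)) e0 := by
  refine ContDiffAt.prodMk (contDiffAt_pi.2 fun z => ?_) (contDiffAt_pi.2 fun p => ?_)
  · refine (((c_LamZ hA hB m hT hE hL hT0 hE0 hL0 z).log ?_).add
      (c_U hA hB m hT hE hL hT0 hE0 hL0 z)).add (c_U hA hB m hT hE hL hT0 hE0 hL0 _)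
    rw [v_LamZ hA hB m hT hE hL hT0 hE0 hL0]
    exact ((hB m (hA _)).LamZ_pos z).ne'
  · refine (((c_The hA m hT hE hT0 hE0 p).log ?_).add
      (c_U hA hB m hT hE hL hT0 hE0 hL0 _)).add (c_U hA hB m hT hE hL hT0 hE0 hL0 _)
    rw [hT0, hE0]
    exact (mul_pos (Run7.h713.MC.SMOOTH.RR_pos hA m p)
      (Run7.h713.MC.SMOOTH.SS_pos hA m _)).ne'

end smooth

end Run7.h350.MC
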